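import Mathlib

/-!
# Scott completions and D-completions: definitions
-/

namespace Pool.Agent.Q297.SCP

universe u

section
variable {X : Type u} [TopologicalSpace X]

/-- The specialization order: `x` is below `y` iff `x` lies in the closure of `{y}`. -/
def Below (x y : X) : Prop := x ∈ closure ({y} : Set X)

/-- `D` is (nonempty and) directed for the specialization order. -/
def Dir (D : Set X) : Prop :=
  D.Nonempty ∧ ∀ a ∈ D, ∀ b ∈ D, ∃ c ∈ D, Below a c ∧ Below b c

/-- `s` is a supremum of `D` for the specialization order. -/
def IsSup (D : Set X) (s : X) : Prop :=
  (∀ a ∈ D, Below a s) ∧ ∀ t, (∀ a ∈ D, Below a t) → Below s t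

/-- `U` is Scott open for the specialization order: an upper set that meets every directed set
whose supremum exists and lies in `U`. -/
def ScottOpen (U : Set X) : Prop :=
  (∀ x ∈ U, ∀ y, Below x y → y ∈ U) ∧
    ∀ D : Set X, Dir D → ∀ s, IsSup D s → s ∈ U → (D ∩ U).Nonempty

/-- `A` is d-closed: it contains the supremum of every directed subset that has a supremum. -/
def DClosed (A : Set X) : Prop :=
  ∀ D : Set X, D ⊆ A → Dir D → ∀ s, IsSup D s → s ∈ A

/-- `A` is d-dense: the only d-closed set containing `A` is the whole space. -/
def DDense (A : Set X) : Prop :=
  ∀ B : Set X, DClosed B → A ⊆ B → B = Set.univ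

end

/-- A Scott space: a `T₀` space whose specialization order is directed complete and whose topology
is the Scott topology of that order. -/
structure ScottSpace (X : Type u) [TopologicalSpace X] : Prop where
  t0 : T0Space X
  dcpo : ∀ D : Set X, Dir D → ∃ s, IsSup D s
  isOpen_iff : ∀ U : Set X, IsOpen U ↔ ScottOpen U

/-- A monotone convergence space: a `T₀` space whose specialization order is directed complete and
each of whose open sets is Scott open. -/
structure MonotoneConvergence (X : Type u) [TopologicalSpace X] : Prop where
  t0 : T0Space X
  dcpo : ∀ D : Set X, Dir D → ∃ s, IsSup D s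
  scottOpen : ∀ U : Set X, IsOpen U → ScottOpen U

/-- `i : X → Y` is a D-completion: a topological embedding with d-dense image into a monotone
convergence space. -/
structure IsDCompletion {X Y : Type u} [TopologicalSpace X] [TopologicalSpace Y]
    (i : X → Y) : Prop where
  monotoneConvergence : MonotoneConvergence Y
  isEmbedding : Topology.IsEmbedding i
  dDense : DDense (Set.range i)

/-- `i : X → Y` is a Scott completion: a continuous map into a Scott space through which every
continuous map from `X` to a Scott space factors uniquely. -/
structure IsScottCompletion {X Y : Type u} [TopologicalSpace X] [TopologicalSpace Y]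
    (i : X → Y) : Prop where
  scottSpace : ScottSpace Y
  continuous : Continuous i
  universal : ∀ (Z : Type u) [TopologicalSpace Z], ScottSpace Z →
    ∀ g : X → Z, Continuous g → ∃! h : Y → Z, Continuous h ∧ g = h ∘ i

end Pool.Agent.Q297.SCP
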