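import Pool.Agent.Q297.SCP.Hat

namespace Pool.Agent.Q297.SCP

universe u

section
variable {X Y : Type u} [TopologicalSpace X] [TopologicalSpace Y]

/-! ### The two-point Scott space -/

abbrev Sier : Type u := Set PUnit.{u+1}

theorem dcpo_sier : Dcpo (Sier.{u}) := fun D _ _ => ⟨sSup D, isLUB_sSup D⟩

/-- characteristic map -/
def chi (W : Set X) : X → Sier.{u} := fun x => {_p | x ∈ W}

omit [TopologicalSpace X] in
theorem chi_eq_univ (W : Set X) (x : X) : chi W x = Set.univ ↔ x ∈ W := by
  constructor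
  · intro h
    have : PUnit.unit ∈ chi W x := by rw [h]; trivial
    exact this
  · intro h
    ext p
    exact ⟨fun _ => trivial, fun _ => h⟩

theorem oscott_top : OScott (Sier.{u}) {Set.univ} := by
  refine ⟨?_, ?_⟩
  · intro a b hab ha
    rw [Set.mem_singleton_iff] at *
    subst ha
    exact Set.univ_subset_iff.1 hab
  · intro D hD _ s hs hsU
    rw [Set.mem_singleton_iff] at hsU
    subst hsU
    by_contra hne
    have h1 : ∀ d ∈ D, d ⊆ (∅ : Set PUnit.{u+1}) := by
      intro d hd x hx
      apply hne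
      refine ⟨d, hd, ?_⟩
      rw [Set.mem_singleton_iff]
      ext z
      cases z; cases x
      exact ⟨fun _ => trivial, fun _ => hx⟩
    have h2 := hs.2 (fun d hd => h1 d hd)
    exact h2 (Set.mem_univ PUnit.unit)

theorem continuous_chi {W : Set X} (hW : IsOpen W) :
    @Continuous X (Sier.{u}) _ (scottTop _) (chi W) := by
  let _ := scottTop (Sier.{u})
  refine ⟨?_⟩
  intro V hV
  have hV' : OScott (Sier.{u}) V := hV
  by_cases h0 : (∅ : Set PUnit.{u+1}) ∈ V
  · have : V = Set.univ := by
      ext v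
      exact ⟨fun _ => trivial, fun _ => hV'.1 (Set.empty_subset v) h0⟩
    rw [this, Set.preimage_univ]
    exact isOpen_univ
  · by_cases h1 : (Set.univ : Set PUnit.{u+1}) ∈ V
    · have : chi W ⁻¹' V = W := by
        ext x
        rw [Set.mem_preimage]
        constructor
        · intro hx
          by_contra hxW
          apply h0
          have h2 : chi W x = ∅ := by
            ext p
            exact ⟨fun h => hxW h, fun h => h.elim⟩
          rwa [h2] at hx
        · intro hx
          rw [(chi_eq_univ W x).2 hx]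
          exact h1
      rw [this]
      exact hW
    · have : chi W ⁻¹' V = ∅ := by
        ext x
        constructor
        · intro hx
          exact h1 (hV'.1 (Set.subset_univ _) hx)
        · intro hx
          exact hx.elim
      rw [this]
      exact isOpen_empty

variable {i : X → Y} (hi : IsScottCompletion i)

include hi

theorem exists_open {W : Set X} (hW : IsOpen W) : ∃ U : Set Y, IsOpen U ∧ i ⁻¹' U = W := by
  let _ := scottTop (Sier.{u})
  obtain ⟨h, ⟨hc, he⟩, _⟩ := hi.universal (Sier.{u}) (scottSpace _ dcpo_sier) (chi W)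
    (continuous_chi hW)
  refine ⟨h ⁻¹' {Set.univ}, IsOpen.preimage hc oscott_top, ?_⟩
  ext x
  rw [Set.mem_preimage, Set.mem_preimage, Set.mem_singleton_iff]
  have : h (i x) = chi W x := (congrFun he x).symm
  rw [this, chi_eq_univ]

theorem open_unique {U V : Set Y} (hU : IsOpen U) (hV : IsOpen V) (h : i ⁻¹' U = i ⁻¹' V) :
    U = V := by
  let _ := scottTop (Sier.{u})
  obtain ⟨k, _, hk⟩ := hi.universal (Sier.{u}) (scottSpace _ dcpo_sier) (chi (i ⁻¹' U))
    (continuous_chi (hU.preimage hi.continuous))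
  have h1 := hk (chi U) ⟨continuous_chi hU, rfl⟩
  have h2 := hk (chi V) ⟨continuous_chi hV, by rw [h]; rfl⟩
  have h3 : (chi U : Y → Sier.{u}) = chi V := h1.trans h2.symm
  ext y
  rw [← chi_eq_univ U y, ← chi_eq_univ V y, h3]

theorem isEmbedding [T0Space X] : Topology.IsEmbedding i := by
  have hind : Topology.IsInducing i := by
    refine ⟨?_⟩
    apply TopologicalSpace.ext
    ext W
    constructor
    · intro hW
      obtain ⟨U, hU, hUW⟩ := exists_open hi hW
      exact ⟨U, hU, hUW⟩
    · rintro ⟨U, hU, rfl⟩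
      exact hU.preimage hi.continuous
  exact hind.isEmbedding

theorem exists_below (p : Y) : ∃ x : X, Below (i x) p := by
  by_contra hne
  push Not at hne
  have hopen : IsOpen (closure ({p} : Set Y))ᶜ := isClosed_closure.isOpen_compl
  have h1 : i ⁻¹' (closure ({p} : Set Y))ᶜ = i ⁻¹' Set.univ := by
    ext x
    exact ⟨fun _ => trivial, fun _ => hne x⟩
  have h2 := open_unique hi hopen isOpen_univ h1
  have h3 : p ∈ (closure ({p} : Set Y))ᶜ := by rw [h2]; trivial
  exact h3 (subset_closure rfl)

/-- Every d-closed set containing the image of a Scott completion is the whole space. -/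
theorem dDense : DDense (Set.range i) := by
  intro B hB hsub
  have hY := hi.scottSpace
  let _ : PartialOrder (Hat B) := Hat.po hY.t0 B
  let _ := scottTop (Hat B)
  have hdcpo : Dcpo (Hat B) := by
    intro E hE hdir
    obtain ⟨s, h1, h2, _⟩ := Hat.exists_lub hY hB E hE hdir
    exact ⟨s, fun e he => h1 e he, fun t ht => h2 t (fun e he => ht he)⟩
  have hmemB : ∀ x, i x ∈ B := fun x => hsub ⟨x, rfl⟩
  -- the map into the model
  let g : X → Hat B := fun x => hat (i x) (hmemB x)
  have hg : Continuous g := by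
    rw [continuous_iff_continuousAt]
    intro x
    rw [ContinuousAt, tendsto_nhds]
    intro V hV hxV
    have hV' : OScott (Hat B) V := hV
    -- principal filters
    let pr : Set Y → Set (Set Y) := fun U => {W | IsOpen W ∧ U ⊆ W}
    have hpr : ∀ U, IsOpen U → Filt (pr U) := by
      intro U hU
      exact ⟨⟨isOpen_univ, Set.subset_univ _⟩,
        fun A hA C hC => ⟨hA.1.inter hC.1, Set.subset_inter hA.2 hC.2⟩,
        fun A hA C hC hAC => ⟨hC, hA.2.trans hAC⟩⟩
    let E : Set (Hat B) := {e | e.pt = i x ∧ ∃ U, IsOpen U ∧ i x ∈ U ∧ e.fil = pr U}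
    have mk : ∀ U, IsOpen U → i x ∈ U → ∃ e ∈ E, e.fil = pr U := by
      intro U hU hxU
      exact ⟨⟨pr U, i x, hmemB x, hpr U hU, fun W hW => ⟨hW.1, hW.2 hxU⟩⟩,
        ⟨rfl, U, hU, hxU, rfl⟩, rfl⟩
    have hEne : E.Nonempty := by
      obtain ⟨e, he, _⟩ := mk Set.univ isOpen_univ trivial
      exact ⟨e, he⟩
    have hEdir : DirectedOn (· ≤ ·) E := by
      rintro a ⟨ha, U, hU, hxU, haU⟩ b ⟨hb, U', hU', hxU', hbU'⟩
      obtain ⟨e, he, heU⟩ := mk (U ∩ U') (hU.inter hU') ⟨hxU, hxU'⟩
      refine ⟨e, he, Hat.le_of ?_ (Or.inl (ha.trans he.1.symm)),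
        Hat.le_of ?_ (Or.inl (hb.trans he.1.symm))⟩
      · rw [haU, heU]
        exact fun W hW => ⟨hW.1, Set.inter_subset_left.trans hW.2⟩
      · rw [hbU', heU]
        exact fun W hW => ⟨hW.1, Set.inter_subset_right.trans hW.2⟩
    have hElub : IsLUB E (g x) := by
      constructor
      · rintro e ⟨he, U, hU, hxU, heU⟩
        refine Hat.le_of ?_ (Or.inr rfl)
        rw [heU]
        exact fun W hW => ⟨hW.1, hW.2 hxU⟩
      · intro t ht
        obtain ⟨e, he, heU⟩ := mk Set.univ isOpen_univ trivial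
        have halt : e.pt = t.pt ∨ t.fil = Nb t.pt := Hat.le_alt (ht he)
        refine Hat.le_of ?_ ?_
        · rintro W ⟨hW, hxW⟩
          obtain ⟨e', he', heW⟩ := mk W hW hxW
          apply Hat.le_fil (ht he')
          rw [heW]
          exact ⟨hW, subset_rfl⟩
        · rw [he.1] at halt
          exact halt
    obtain ⟨e, ⟨hex, U, hU, hxU, heU⟩, heV⟩ := hV'.2 E hEne hEdir (g x) hElub hxV
    refine Filter.mem_of_superset ((hU.preimage hi.continuous).mem_nhds hxU) ?_
    intro z hz
    have hle : e ≤ g z := by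
      refine Hat.le_of ?_ (Or.inr rfl)
      rw [heU]
      exact fun W hW => ⟨hW.1, hW.2 hz⟩
    exact hV'.1 hle heV
  obtain ⟨h, ⟨hc, he⟩, _⟩ := hi.universal (Hat B) (scottSpace _ hdcpo) g hg
  -- the values of the extension are hats
  have hhat : ∀ p, (h p).fil = Nb (h p).pt := by
    intro p
    obtain ⟨x, hx⟩ := exists_below hi p
    have h1 := below_map hc hx
    rw [below_iff_le] at h1
    have h2 : h (i x) = g x := (congrFun he x).symm
    rw [h2] at h1
    have hf : Nb (i x) ⊆ (h p).fil := Hat.le_fil h1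
    have ha : i x = (h p).pt ∨ (h p).fil = Nb (h p).pt := Hat.le_alt h1
    rcases ha with h3 | h3
    · apply Set.Subset.antisymm (h p).sub
      rw [← h3]
      exact hf
    · exact h3
  -- the retraction
  let r : Y → Y := fun p => (h p).pt
  have hr : Continuous r := by
    refine ⟨?_⟩
    intro U hU
    have h1 : r ⁻¹' U = h ⁻¹' {e : Hat B | U ∈ e.fil} := by
      ext p
      simp only [Set.mem_preimage, Set.mem_ofPred_eq]
      rw [hhat p]
      exact ⟨fun hp => ⟨hU, hp⟩, fun hp => hp.2⟩
    rw [h1]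
    refine IsOpen.preimage hc ?_
    change OScott (Hat B) _
    refine ⟨?_, ?_⟩
    · intro a b hab ha
      exact Hat.le_fil hab ha
    · intro E hE hdir s hs hsU
      obtain ⟨s', h1, h2, h3⟩ := Hat.exists_lub hY hB E hE hdir
      have hlub : IsLUB E s' := ⟨fun e he => h1 e he, fun t ht => h2 t (fun e he => ht he)⟩
      rw [hs.unique hlub] at hsU
      obtain ⟨e, heE, heU⟩ := h3 U hsU
      exact ⟨e, heE, heU⟩
  have hri : i = r ∘ i := by
    funext x
    have h2 : h (i x) = g x := (congrFun he x).symm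
    change i x = (h (i x)).pt
    rw [h2]
    rfl
  obtain ⟨k, _, hk⟩ := hi.universal Y hY i hi.continuous
  have hrid : r = id := (hk r ⟨hr, hri⟩).trans (hk id ⟨continuous_id, rfl⟩).symm
  ext p
  refine ⟨fun _ => trivial, fun _ => ?_⟩
  have h1 : r p = p := congrFun hrid p
  rw [← h1]
  exact (h p).mem

theorem isDCompletion [T0Space X] : IsDCompletion i :=
  ⟨⟨hi.scottSpace.t0, hi.scottSpace.dcpo, fun U hU => (hi.scottSpace.isOpen_iff U).1 hU⟩,
    isEmbedding hi, dDense hi⟩

end

end Pool.Agent.Q297.SCP
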