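import Pool.Agent.Q297.SCP.Main

namespace Pool.Agent.Q297.SCP

universe u

/-! ### Basic facts on the specialization order -/

section
variable {X Y : Type u} [TopologicalSpace X] [TopologicalSpace Y]

/-- open neighbourhoods -/
def Nb (x : X) : Set (Set X) := {U | IsOpen U ∧ x ∈ U}

theorem below_iff_nb (x y : X) : Below x y ↔ Nb x ⊆ Nb y := by
  constructor
  · rintro h U ⟨hU, hx⟩
    obtain ⟨z, hz1, hz2⟩ := mem_closure_iff.1 h U hU hx
    rw [Set.mem_singleton_iff] at hz2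
    subst hz2
    exact ⟨hU, hz1⟩
  · intro h
    apply mem_closure_iff.2
    intro U hU hx
    exact ⟨y, (h ⟨hU, hx⟩).2, rfl⟩

theorem below_map {f : X → Y} (hf : Continuous f) {x y : X} (h : Below x y) :
    Below (f x) (f y) := by
  rw [below_iff_nb] at *
  rintro U ⟨hU, hx⟩
  exact ⟨hU, (h ⟨hU.preimage hf, hx⟩).2⟩

theorem nb_injective [T0Space X] {x y : X} (h : Nb x = Nb y) : x = y := by
  apply Inseparable.eq
  rw [inseparable_iff_forall_isOpen]
  intro U hU
  constructor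
  · intro hx
    have : U ∈ Nb x := ⟨hU, hx⟩
    rw [h] at this
    exact this.2
  · intro hy
    have : U ∈ Nb y := ⟨hU, hy⟩
    rw [← h] at this
    exact this.2

end

/-! ### The model of a d-closed subspace -/

section
variable {Y : Type u} [TopologicalSpace Y]

/-- filters of open sets -/
structure Filt (F : Set (Set Y)) : Prop where
  univ : Set.univ ∈ F
  inter : ∀ U ∈ F, ∀ V ∈ F, U ∩ V ∈ F
  up : ∀ U ∈ F, ∀ V, IsOpen V → U ⊆ V → V ∈ F

theorem filt_nb (x : Y) : Filt (Nb x) where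
  univ := ⟨isOpen_univ, trivial⟩
  inter := fun _ hU _ hV => ⟨hU.1.inter hV.1, hU.2, hV.2⟩
  up := fun _ hU _ hV hUV => ⟨hV, hUV hU.2⟩

/-- the model: pairs of a filter of open sets and a point of B whose neighbourhoods contain it -/
@[ext] structure Hat (B : Set Y) : Type u where
  fil : Set (Set Y)
  pt : Y
  mem : pt ∈ B
  filt : Filt fil
  sub : fil ⊆ Nb pt

variable {B : Set Y}

/-- the order of the model -/
def Hat.le (p q : Hat B) : Prop :=
  (p.pt = q.pt ∧ p.fil ⊆ q.fil) ∨ (q.fil = Nb q.pt ∧ p.fil ⊆ Nb q.pt)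

theorem Hat.le_fil {p q : Hat B} (h : p.le q) : p.fil ⊆ q.fil := by
  rcases h with h | h
  · exact h.2
  · rw [h.1]; exact h.2

theorem Hat.le_alt {p q : Hat B} (h : p.le q) : p.pt = q.pt ∨ q.fil = Nb q.pt := by
  rcases h with h | h
  · exact Or.inl h.1
  · exact Or.inr h.1

theorem Hat.le_of {p q : Hat B} (h1 : p.fil ⊆ q.fil) (h2 : p.pt = q.pt ∨ q.fil = Nb q.pt) :
    p.le q := by
  rcases h2 with h2 | h2
  · exact Or.inl ⟨h2, h1⟩
  · exact Or.inr ⟨h2, h2 ▸ h1⟩

theorem Hat.le_iff {p q : Hat B} :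
    p.le q ↔ p.fil ⊆ q.fil ∧ (p.pt = q.pt ∨ q.fil = Nb q.pt) :=
  ⟨fun h => ⟨Hat.le_fil h, Hat.le_alt h⟩, fun h => Hat.le_of h.1 h.2⟩

@[instance_reducible] def Hat.po (hT : T0Space Y) (B : Set Y) : PartialOrder (Hat B) where
  le := Hat.le
  le_refl p := Hat.le_of (le_refl _) (Or.inl rfl)
  le_trans p q r hpq hqr := by
    rw [Hat.le_iff] at *
    refine ⟨hpq.1.trans hqr.1, ?_⟩
    rcases hqr.2 with h | h
    · rcases hpq.2 with h' | h'
      · exact Or.inl (h'.trans h)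
      · right
        apply Set.Subset.antisymm r.sub
        rw [← h, ← h']
        exact hqr.1
    · exact Or.inr h
  le_antisymm p q hpq hqp := by
    rw [Hat.le_iff] at *
    have h1 : p.fil = q.fil := Set.Subset.antisymm hpq.1 hqp.1
    have h2 : p.pt = q.pt := by
      rcases hpq.2 with h | h
      · exact h
      · rcases hqp.2 with h' | h'
        · exact h'.symm
        · apply nb_injective
          rw [← h, ← h', h1]
    exact Hat.ext h1 h2

/-- the hat of a point -/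
def hat (x : Y) (hx : x ∈ B) : Hat B := ⟨Nb x, x, hx, filt_nb x, le_refl _⟩

/-- Directed suprema exist in the model, and are computed by unions of filters. -/
theorem Hat.exists_lub (hY : ScottSpace Y) (hB : DClosed B) (E : Set (Hat B)) (hE : E.Nonempty)
    (hdir : ∀ a ∈ E, ∀ b ∈ E, ∃ c ∈ E, a.le c ∧ b.le c) :
    ∃ s : Hat B, (∀ e ∈ E, e.le s) ∧ (∀ t : Hat B, (∀ e ∈ E, e.le t) → s.le t) ∧
      (∀ U, U ∈ s.fil → ∃ e ∈ E, U ∈ e.fil) := by
  by_cases hc : ∀ e ∈ E, ∃ e' ∈ E, e.le e' ∧ e'.fil = Nb e'.pt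
  · -- hats are cofinal
    let H : Set Y := {x | ∃ e ∈ E, e.fil = Nb e.pt ∧ e.pt = x}
    have hHne : H.Nonempty := by
      obtain ⟨e, he⟩ := hE
      obtain ⟨e', he', _, h2⟩ := hc e he
      exact ⟨e'.pt, e', he', h2, rfl⟩
    have hHB : H ⊆ B := by
      rintro x ⟨e, _, _, rfl⟩
      exact e.mem
    have hHdir : Dir H := by
      refine ⟨hHne, ?_⟩
      rintro x ⟨a, ha, ha2, rfl⟩ y ⟨b, hb, hb2, rfl⟩
      obtain ⟨c, hcE, hac, hbc⟩ := hdir a ha b hb
      obtain ⟨d, hdE, hcd, hd2⟩ := hc c hcE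
      refine ⟨d.pt, ⟨d, hdE, hd2, rfl⟩, ?_, ?_⟩
      · rw [below_iff_nb, ← ha2, ← hd2]
        exact (Hat.le_fil hac).trans (Hat.le_fil hcd)
      · rw [below_iff_nb, ← hb2, ← hd2]
        exact (Hat.le_fil hbc).trans (Hat.le_fil hcd)
    obtain ⟨s, hs⟩ := hY.dcpo H hHdir
    have hsB : s ∈ B := hB H hHB hHdir s hs
    refine ⟨hat s hsB, ?_, ?_, ?_⟩
    · intro e he
      obtain ⟨e', he', h1, h2⟩ := hc e he
      have h3 : Below e'.pt s := hs.1 _ ⟨e', he', h2, rfl⟩
      rw [below_iff_nb, ← h2] at h3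
      exact Hat.le_of ((Hat.le_fil h1).trans h3) (Or.inr rfl)
    · intro t ht
      have h1 : ∀ e ∈ E, e.fil = Nb e.pt → t.fil = Nb t.pt ∧ Below e.pt t.pt := by
        intro e he h
        have h2 := Hat.le_fil (ht e he)
        have h3 : t.fil = Nb t.pt := by
          rcases Hat.le_alt (ht e he) with h4 | h4
          · apply Set.Subset.antisymm t.sub
            rw [← h4, ← h]
            exact h2
          · exact h4
        refine ⟨h3, ?_⟩
        rw [below_iff_nb, ← h3, ← h]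
        exact h2
      obtain ⟨x, e, he, h, _⟩ := hHne
      have h2 := (h1 e he h).1
      refine Hat.le_of ?_ (Or.inr h2)
      have h3 : Below s t.pt := by
        apply hs.2
        rintro y ⟨e', he', h', rfl⟩
        exact (h1 e' he' h').2
      rw [below_iff_nb, ← h2] at h3
      exact h3
    · rintro U ⟨hU, hsU⟩
      obtain ⟨x, ⟨e, he, h, rfl⟩, hxU⟩ := ((hY.isOpen_iff U).1 hU).2 H hHdir s hs hsU
      refine ⟨e, he, ?_⟩
      rw [h]
      exact ⟨hU, hxU⟩
  · push Not at hc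
    obtain ⟨e0, he0, hc⟩ := hc
    have hpt : ∀ e ∈ E, e0.le e → e0.pt = e.pt := by
      intro e he h
      rcases Hat.le_alt h with h' | h'
      · exact h'
      · exact absurd h' (hc e he h)
    let F : Set (Set Y) := {U | ∃ e ∈ E, U ∈ e.fil}
    have hF : Filt F := by
      refine ⟨⟨e0, he0, e0.filt.univ⟩, ?_, ?_⟩
      · rintro U ⟨a, ha, hU⟩ V ⟨b, hb, hV⟩
        obtain ⟨c, hcE, hac, hbc⟩ := hdir a ha b hb
        exact ⟨c, hcE, c.filt.inter U (Hat.le_fil hac hU) V (Hat.le_fil hbc hV)⟩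
      · rintro U ⟨a, ha, hU⟩ V hV hUV
        exact ⟨a, ha, a.filt.up U hU V hV hUV⟩
    have hFsub : F ⊆ Nb e0.pt := by
      rintro U ⟨a, ha, hU⟩
      obtain ⟨c, hcE, hac, hbc⟩ := hdir a ha e0 he0
      rw [hpt c hcE hbc]
      exact c.sub (Hat.le_fil hac hU)
    refine ⟨⟨F, e0.pt, e0.mem, hF, hFsub⟩, ?_, ?_, ?_⟩
    · intro e he
      obtain ⟨c, hcE, hec, h0c⟩ := hdir e he e0 he0
      have h1 : c.le ⟨F, e0.pt, e0.mem, hF, hFsub⟩ :=
        Hat.le_of (fun U hU => ⟨c, hcE, hU⟩) (Or.inl (hpt c hcE h0c).symm)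
      exact (Hat.po hY.t0 B).le_trans _ _ _ hec h1
    · intro t ht
      have halt : e0.pt = t.pt ∨ t.fil = Nb t.pt := Hat.le_alt (ht e0 he0)
      refine Hat.le_of ?_ halt
      rintro U ⟨e, he, hU⟩
      exact Hat.le_fil (ht e he) hU
    · rintro U ⟨e, he, hU⟩
      exact ⟨e, he, hU⟩

end

end Pool.Agent.Q297.SCP
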