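import Pool.Agent.Q297.SCP.Defs

namespace Pool.Agent.Q297.SCP

universe u

/-! ### Scott topology of a partial order -/

section
variable (P : Type u) [PartialOrder P]

/-- directed completeness of a partial order -/
def Dcpo : Prop := ∀ D : Set P, D.Nonempty → DirectedOn (· ≤ ·) D → ∃ s, IsLUB D s

/-- order-theoretic Scott open sets -/
def OScott (U : Set P) : Prop :=
  IsUpperSet U ∧ ∀ D : Set P, D.Nonempty → DirectedOn (· ≤ ·) D → ∀ s, IsLUB D s → s ∈ U →
    (D ∩ U).Nonempty

/-- the Scott topology -/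
@[instance_reducible] def scottTop : TopologicalSpace P where
  IsOpen := OScott P
  isOpen_univ := ⟨isUpperSet_univ, fun D hD _ _ _ _ => by simpa using hD⟩
  isOpen_inter := by
    rintro U V ⟨hU, hU2⟩ ⟨hV, hV2⟩
    refine ⟨hU.inter hV, ?_⟩
    intro D hD hdir s hs hsUV
    obtain ⟨a, haD, haU⟩ := hU2 D hD hdir s hs hsUV.1
    obtain ⟨b, hbD, hbV⟩ := hV2 D hD hdir s hs hsUV.2
    obtain ⟨c, hcD, hac, hbc⟩ := hdir a haD b hbD
    exact ⟨c, hcD, hU hac haU, hV hbc hbV⟩
  isOpen_sUnion := by
    intro S hS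
    refine ⟨isUpperSet_sUnion fun U hU => (hS U hU).1, ?_⟩
    rintro D hD hdir s hs ⟨U, hUS, hsU⟩
    obtain ⟨a, haD, haU⟩ := (hS U hUS).2 D hD hdir s hs hsU
    exact ⟨a, haD, U, hUS, haU⟩

theorem below_iff_le (x y : P) : @Below P (scottTop P) x y ↔ x ≤ y := by
  let _ := scottTop P
  constructor
  · intro h
    by_contra hxy
    have hopen : IsOpen {z : P | ¬ z ≤ y} := by
      change OScott P _
      refine ⟨?_, ?_⟩
      · intro a b hab ha hb
        exact ha (hab.trans hb)
      · intro D hD hdir s hs hsU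
        by_contra hne
        apply hsU
        apply hs.2
        intro d hd
        by_contra hdy
        exact hne ⟨d, hd, hdy⟩
    obtain ⟨z, hz1, hz2⟩ := mem_closure_iff.1 h _ hopen hxy
    rw [Set.mem_singleton_iff] at hz2
    subst hz2
    exact hz1 le_rfl
  · intro h
    apply mem_closure_iff.2
    intro U hU hx
    have hU' : OScott P U := hU
    exact ⟨y, hU'.1 h hx, rfl⟩

theorem dir_iff (D : Set P) : @Dir P (scottTop P) D ↔ D.Nonempty ∧ DirectedOn (· ≤ ·) D := by
  let _ := scottTop P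
  unfold Dir DirectedOn
  simp only [below_iff_le]

theorem isSup_iff (D : Set P) (s : P) : @IsSup P (scottTop P) D s ↔ IsLUB D s := by
  let _ := scottTop P
  unfold IsSup IsLUB IsLeast
  simp only [below_iff_le]
  rfl

theorem scottSpace (h : Dcpo P) : @ScottSpace P (scottTop P) := by
  let _ := scottTop P
  refine ⟨?_, ?_, ?_⟩
  · refine ⟨?_⟩
    intro x y hxy
    apply le_antisymm
    · rw [← below_iff_le P]
      exact specializes_iff_mem_closure.1 hxy.specializes'
    · rw [← below_iff_le P]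
      exact specializes_iff_mem_closure.1 hxy.specializes
  · intro D hD
    rw [dir_iff] at hD
    obtain ⟨s, hs⟩ := h D hD.1 hD.2
    exact ⟨s, (isSup_iff P D s).2 hs⟩
  · intro U
    change OScott P U ↔ ScottOpen U
    unfold OScott ScottOpen
    simp only [below_iff_le, dir_iff, isSup_iff]
    constructor
    · rintro ⟨h1, h2⟩
      exact ⟨fun x hx y hxy => h1 hxy hx, fun D hD => h2 D hD.1 hD.2⟩
    · rintro ⟨h1, h2⟩
      exact ⟨fun x y hxy hx => h1 x hx y hxy, fun D hD hd => h2 D ⟨hD, hd⟩⟩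

end

end Pool.Agent.Q297.SCP
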